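import Pool.Agent.H66.AV.TF

/-!
# Row ID1 of avh_modules (MP_0f8dca_lc): the first moment of the second sum
-/

set_option autoImplicit false

namespace Pool.Agent.H12.AVH

open Finset Pool.Agent.H6.NB Pool.Agent.H70.OQ Pool.Agent.H70.EH Pool.Agent.H70.EI Pool.Agent.H78.XQ
open Pool.Agent.H66.IQ Pool.Agent.H66.AV

theorem id1_val {k : ℕ} (G : Prot k) (O : List Bool → Bool) : 0 ≤ G.val O ∧ G.val O ≤ 1 := by
  induction G with
  | test T =>
    unfold Prot.val
    split_ifs <;> constructor <;> norm_num
  | coin l r hl hr =>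
    unfold Prot.val
    constructor <;> linarith [hl.1, hl.2, hr.1, hr.2]
  | say l r hl hr =>
    unfold Prot.val
    exact ⟨le_max_of_le_left hl.1, max_le hl.2 hr.2⟩

theorem id1_split {ι κ : Type} [Fintype ι] [DecidableEq ι] [Fintype κ] (x : ι)
    (F : (ι → κ) → ℝ) :
    (Fintype.card κ : ℝ) * ∑ z, F z = ∑ z : ι → κ, ∑ c : κ, F (Function.update z x c) := by
  have hinv : Function.Involutive
      (fun p : (ι → κ) × κ => (Function.update p.1 x p.2, p.1 x)) := by
    intro p
    simp
  have h := Equiv.sum_comp hinv.toPerm (fun p : (ι → κ) × κ => F p.1)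
  rw [Fintype.sum_prod_type, Fintype.sum_prod_type] at h
  simp only [Function.Involutive.coe_toPerm] at h
  rw [h]
  simp [mul_sum]

theorem id1_tbl {n k : ℕ} (z : Wn n k) (x : Fin n → Bool)
    (c : Bool × Hid (Fin n → Bool) (Ys n) k × (Fin n → Bool)) :
    tbl (Function.update z x c) = Function.update (tbl z) x
      (if c.1 then tabU k c.2.1 c.2.2 else tabT k c.2.1) := by
  funext x'
  by_cases h : x' = x
  · subst h
    simp [tbl]
  · simp [tbl, Function.update_of_ne h]

theorem id1_lit {n k : ℕ} (Q : ((Fin n → Bool) → Nn n k → Bool) → List Bool → Bool)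
    (hQ : LitT Q) (T : (Fin n → Bool) → Nn n k → Bool) (x : Fin n → Bool) :
    Lit (fun y => Q (Function.update T x y)) := by
  intro w
  rcases hQ w with ⟨b, hb⟩ | ⟨x', q, hq⟩
  · exact Or.inl ⟨b, fun y => hb _⟩
  · by_cases h : x' = x
    · subst h
      refine Or.inr ⟨q, fun y => ?_⟩
      simp only [hq, Function.update_self]
    · refine Or.inl ⟨T x' q, fun y => ?_⟩
      simp only [hq, Function.update_of_ne h]

theorem pf_ID1 (hPGA : T_PGA) (hNVB : T_NVB) : T_ID1 := by
  intro k
  obtain ⟨n₀, hn₀⟩ := hPGA k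
  refine ⟨n₀, fun n hn A C B hB hA hC Q hQ => ?_⟩
  have hpos : (0 : ℝ) ≤ 1 / B + 2 * (1 / 2) ^ (n / 3) := by positivity
  have key : ∀ x : Fin n → Bool, ∑ z : Wn n k,
      (if (z x).1 then v0 A Q z x * (1 - v1 C Q z x) else 0) ≤
      Fintype.card (Wn n k) * (1 / B + 2 * (1 / 2) ^ (n / 3)) := by
    intro x
    rcases isEmpty_or_nonempty (Wn n k) with hemp | ⟨⟨z0⟩⟩
    · rw [Fintype.sum_empty]
      positivity
    set F : Wn n k → ℝ := fun z => if (z x).1 then v0 A Q z x * (1 - v1 C Q z x) else 0 with hF
    set N : ℝ := (Fintype.card (Bool × Hid (Fin n → Bool) (Ys n) k × (Fin n → Bool)) : ℝ) with hN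
    set N' : ℝ := (Fintype.card (Hid (Fin n → Bool) (Ys n) k × (Fin n → Bool)) : ℝ) with hN'
    have hNN : N = 2 * N' := by
      rw [hN, hN', Fintype.card_prod, Fintype.card_bool]
      push_cast
      ring
    have hNpos : 0 < N := by
      rw [hN]
      haveI : Nonempty (Bool × Hid (Fin n → Bool) (Ys n) k × (Fin n → Bool)) := ⟨z0 x⟩
      exact_mod_cast Fintype.card_pos
    have hsp := id1_split x F
    have hin : ∀ z : Wn n k, ∑ c : Bool × Hid (Fin n → Bool) (Ys n) k × (Fin n → Bool),
        F (Function.update z x c) ≤ N * (1 / B + 2 * (1 / 2) ^ (n / 3)) := by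
      intro z
      obtain ⟨a, ha0, ha1, ha2⟩ := hn₀ n hn (A x) (hA x)
        (fun y => Q (Function.update (tbl z) x y)) (id1_lit Q hQ (tbl z) x)
      rw [Fintype.sum_prod_type, Fintype.sum_bool]
      have hf : ∑ y : Hid (Fin n → Bool) (Ys n) k × (Fin n → Bool),
          F (Function.update z x (false, y)) = 0 := by
        refine sum_eq_zero fun y _ => ?_
        simp [hF]
      have ht : ∀ y : Hid (Fin n → Bool) (Ys n) k × (Fin n → Bool),
          F (Function.update z x (true, y)) ≤ 1 / B + 2 * a y := by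
        intro y
        have e0 : v0 A Q (Function.update z x (true, y)) x =
            (A x).val (Q (Function.update (tbl z) x (tabT k y.1))) := by
          unfold v0 zer
          rw [Function.update_self, Function.update_idem, id1_tbl]
          simp
        have e1 : v1 C Q (Function.update z x (true, y)) x =
            (C x).val (Q (Function.update (tbl z) x (tabU k y.1 y.2))) := by
          unfold v1
          rw [id1_tbl]
          simp
        have e2 : F (Function.update z x (true, y)) =
            (A x).val (Q (Function.update (tbl z) x (tabT k y.1))) *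
              (1 - (A x).val (Q (Function.update (tbl z) x (tabU k y.1 y.2)))) ^ B := by
          rw [← hC, ← e0, ← e1, hF]
          simp
        rw [e2]
        have g0 := id1_val (A x) (Q (Function.update (tbl z) x (tabT k y.1)))
        have g1 := id1_val (A x) (Q (Function.update (tbl z) x (tabU k y.1 y.2)))
        exact hNVB _ _ (a y) B hB g0.1 g0.2 g1.1 g1.2 (ha0 y) (ha2 y)
      rw [hf, add_zero]
      calc ∑ y : Hid (Fin n → Bool) (Ys n) k × (Fin n → Bool),
            F (Function.update z x (true, y)) ≤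
            ∑ y : Hid (Fin n → Bool) (Ys n) k × (Fin n → Bool), (1 / (B : ℝ) + 2 * a y) :=
            sum_le_sum fun y _ => ht y
        _ = N' * (1 / B) + 2 * ∑ y, a y := by
            rw [sum_add_distrib, sum_const, card_univ, nsmul_eq_mul, ← mul_sum]
        _ ≤ N' * (1 / B) + 2 * (N' * (1 / 2) ^ (n / 3)) := by linarith
        _ = N' * (1 / B + 2 * (1 / 2) ^ (n / 3)) := by ring
        _ ≤ N * (1 / B + 2 * (1 / 2) ^ (n / 3)) :=
            mul_le_mul_of_nonneg_right (by linarith) hpos
    have h1 : N * ∑ z, F z ≤ N * (Fintype.card (Wn n k) * (1 / B + 2 * (1 / 2) ^ (n / 3))) := by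
      calc N * ∑ z, F z = ∑ z : Wn n k,
            ∑ c : Bool × Hid (Fin n → Bool) (Ys n) k × (Fin n → Bool),
              F (Function.update z x c) := hsp
        _ ≤ ∑ _z : Wn n k, N * (1 / B + 2 * (1 / 2) ^ (n / 3)) := sum_le_sum fun z _ => hin z
        _ = N * (Fintype.card (Wn n k) * (1 / B + 2 * (1 / 2) ^ (n / 3))) := by
            rw [sum_const, card_univ, nsmul_eq_mul]
            ring
    exact le_of_mul_le_mul_left h1 hNpos
  unfold s1
  rw [sum_comm]
  calc _ ≤ ∑ _x : Fin n → Bool,
        ((Fintype.card (Wn n k) : ℝ) * (1 / B + 2 * (1 / 2) ^ (n / 3))) :=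
        sum_le_sum fun x _ => key x
    _ = _ := by
        rw [sum_const, card_univ, nsmul_eq_mul]
        have hc : (Fintype.card (Fin n → Bool) : ℝ) = 2 ^ n := by simp
        rw [hc]
        ring

end Pool.Agent.H12.AVH
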